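import Pool.Agent.Helper96.EL.Goals

/-!
# Packet EL-BND
-/

namespace Pool.Agent.Helper13.EL

universe u

open Pool.Agent.Helper96.EL

section
variable {F : Type u} [Field F] (a : AbsoluteValue F ℝ)

theorem av_sub_le (x y : F) : a (x - y) ≤ a x + a y := by
  rw [sub_eq_add_neg, ← a.map_neg y]
  exact a.add_le x (-y)

theorem part1 (W : WeierstrassCurve.Affine F) [W.IsElliptic] (R : ℝ) :
    ∃ κ : ℝ, 0 < κ ∧ ∀ x : F, a x ≤ R → κ ≤ a (psi W x) + a (phi W x) := by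
  set R' := max R 0 with hR'
  have hR0 : 0 ≤ R' := le_max_right _ _
  set K := 1 + (a 48 * R' ^ 2 + a (8 * W.b₂) * R' + a (W.b₂ ^ 2 - 32 * W.b₄)) +
    (a 12 * R' ^ 3 + a W.b₂ * R' ^ 2 + a (10 * W.b₄) * R' + a (W.b₂ * W.b₄ - 27 * W.b₆)) with hK
  have hn : ∀ y : F, 0 ≤ a y := a.nonneg
  have hKpos : 0 < K := by
    have h1 := hn 48
    have h2 := hn (8 * W.b₂)
    have h3 := hn (W.b₂ ^ 2 - 32 * W.b₄)
    have h4 := hn 12
    have h5 := hn W.b₂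
    have h6 := hn (10 * W.b₄)
    have h7 := hn (W.b₂ * W.b₄ - 27 * W.b₆)
    positivity
  have hΔ : 0 < a W.Δ := a.pos (W.isUnit_Δ.ne_zero)
  refine ⟨a W.Δ / K, by positivity, fun x hx => ?_⟩
  have hx' : a x ≤ R' := hx.trans (le_max_left _ _)
  have hx0 := hn x
  rw [div_le_iff₀ hKpos]
  have hc1 : a (-48 * x ^ 2 - 8 * W.b₂ * x + W.b₂ ^ 2 - 32 * W.b₄) ≤ K := by
    have e : -48 * x ^ 2 - 8 * W.b₂ * x + W.b₂ ^ 2 - 32 * W.b₄ =
        -(48 * x ^ 2 + 8 * W.b₂ * x) + (W.b₂ ^ 2 - 32 * W.b₄) := by ring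
    rw [e]
    have h1 : a (-(48 * x ^ 2 + 8 * W.b₂ * x) + (W.b₂ ^ 2 - 32 * W.b₄)) ≤
        (a 48 * a x ^ 2 + a (8 * W.b₂) * a x) + a (W.b₂ ^ 2 - 32 * W.b₄) := by
      refine (a.add_le _ _).trans (add_le_add ?_ le_rfl)
      rw [a.map_neg]
      refine (a.add_le _ _).trans ?_
      rw [a.map_mul, a.map_pow, a.map_mul (8 * W.b₂) x]
    have h2 : a 48 * a x ^ 2 ≤ a 48 * R' ^ 2 :=
      mul_le_mul_of_nonneg_left (pow_le_pow_left₀ hx0 hx' 2) (hn _)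
    have h3 : a (8 * W.b₂) * a x ≤ a (8 * W.b₂) * R' := mul_le_mul_of_nonneg_left hx' (hn _)
    have h4 : 0 ≤ a 12 * R' ^ 3 + a W.b₂ * R' ^ 2 + a (10 * W.b₄) * R' +
        a (W.b₂ * W.b₄ - 27 * W.b₆) := by
      have h4 := hn 12
      have h5 := hn W.b₂
      have h6 := hn (10 * W.b₄)
      have h7 := hn (W.b₂ * W.b₄ - 27 * W.b₆)
      positivity
    linarith
  have hc2 : a (12 * x ^ 3 - W.b₂ * x ^ 2 - 10 * W.b₄ * x + W.b₂ * W.b₄ - 27 * W.b₆) ≤ K := by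
    have e : 12 * x ^ 3 - W.b₂ * x ^ 2 - 10 * W.b₄ * x + W.b₂ * W.b₄ - 27 * W.b₆ =
        ((12 * x ^ 3 - W.b₂ * x ^ 2) - 10 * W.b₄ * x) + (W.b₂ * W.b₄ - 27 * W.b₆) := by ring
    rw [e]
    have h1 : a (((12 * x ^ 3 - W.b₂ * x ^ 2) - 10 * W.b₄ * x) + (W.b₂ * W.b₄ - 27 * W.b₆)) ≤
        ((a 12 * a x ^ 3 + a W.b₂ * a x ^ 2) + a (10 * W.b₄) * a x) +
          a (W.b₂ * W.b₄ - 27 * W.b₆) := by
      refine (a.add_le _ _).trans (add_le_add ?_ le_rfl)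
      refine (av_sub_le a _ _).trans (add_le_add ?_ (by rw [a.map_mul]))
      refine (av_sub_le a _ _).trans ?_
      rw [a.map_mul, a.map_pow, a.map_mul, a.map_pow]
    have h2 : a 12 * a x ^ 3 ≤ a 12 * R' ^ 3 :=
      mul_le_mul_of_nonneg_left (pow_le_pow_left₀ hx0 hx' 3) (hn _)
    have h3 : a W.b₂ * a x ^ 2 ≤ a W.b₂ * R' ^ 2 :=
      mul_le_mul_of_nonneg_left (pow_le_pow_left₀ hx0 hx' 2) (hn _)
    have h4 : a (10 * W.b₄) * a x ≤ a (10 * W.b₄) * R' := mul_le_mul_of_nonneg_left hx' (hn _)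
    have h5 : 0 ≤ a 48 * R' ^ 2 + a (8 * W.b₂) * R' + a (W.b₂ ^ 2 - 32 * W.b₄) := by
      have h1 := hn 48
      have h2 := hn (8 * W.b₂)
      have h3 := hn (W.b₂ ^ 2 - 32 * W.b₄)
      positivity
    linarith
  have hid := disc_identity W x
  calc a W.Δ = a ((-48 * x ^ 2 - 8 * W.b₂ * x + W.b₂ ^ 2 - 32 * W.b₄) * phi W x +
      (12 * x ^ 3 - W.b₂ * x ^ 2 - 10 * W.b₄ * x + W.b₂ * W.b₄ - 27 * W.b₆) * psi W x) := by
        rw [hid]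
    _ ≤ a (-48 * x ^ 2 - 8 * W.b₂ * x + W.b₂ ^ 2 - 32 * W.b₄) * a (phi W x) +
        a (12 * x ^ 3 - W.b₂ * x ^ 2 - 10 * W.b₄ * x + W.b₂ * W.b₄ - 27 * W.b₆) *
          a (psi W x) := by
        rw [← a.map_mul, ← a.map_mul]
        exact a.add_le _ _
    _ ≤ K * a (phi W x) + K * a (psi W x) :=
        add_le_add (mul_le_mul_of_nonneg_right hc1 (hn _)) (mul_le_mul_of_nonneg_right hc2 (hn _))
    _ = (a (psi W x) + a (phi W x)) * K := by ring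

theorem part2 (W : WeierstrassCurve.Affine F) :
    ∃ R₀ C : ℝ, 1 ≤ R₀ ∧ 0 ≤ C ∧ (∀ x : F, 1 ≤ a x → a (psi W x) ≤ C * a x ^ 3) ∧
      ∀ x : F, R₀ ≤ a x → a x ^ 4 / 2 ≤ a (phi W x) := by
  have hn : ∀ y : F, 0 ≤ a y := a.nonneg
  have hC : 0 ≤ a 4 + a W.b₂ + a (2 * W.b₄) + a W.b₆ :=
    add_nonneg (add_nonneg (add_nonneg (hn _) (hn _)) (hn _)) (hn _)
  have hB : 0 ≤ a W.b₄ + a (2 * W.b₆) + a W.b₈ :=
    add_nonneg (add_nonneg (hn _) (hn _)) (hn _)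
  refine ⟨max 1 (2 * (a W.b₄ + a (2 * W.b₆) + a W.b₈)),
    a 4 + a W.b₂ + a (2 * W.b₄) + a W.b₆, le_max_left _ _, hC, fun x hx => ?_, fun x hx => ?_⟩
  · have h1 : a (psi W x) ≤ a 4 * a x ^ 3 + a W.b₂ * a x ^ 2 + a (2 * W.b₄) * a x + a W.b₆ := by
      unfold psi
      refine (a.add_le _ _).trans (add_le_add ?_ le_rfl)
      refine (a.add_le _ _).trans (add_le_add ?_ (by rw [a.map_mul]))
      refine (a.add_le _ _).trans ?_
      rw [a.map_mul, a.map_pow, a.map_mul, a.map_pow]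
    have h2 : a x ^ 2 ≤ a x ^ 3 := pow_le_pow_right₀ hx (by norm_num)
    have h3 : a x ≤ a x ^ 3 := le_self_pow₀ hx (by norm_num)
    have h4 : 1 ≤ a x ^ 3 := one_le_pow₀ hx
    have e2 := mul_le_mul_of_nonneg_left h2 (hn W.b₂)
    have e3 := mul_le_mul_of_nonneg_left h3 (hn (2 * W.b₄))
    have e4 := mul_le_mul_of_nonneg_left h4 (hn W.b₆)
    nlinarith
  · have h1 : 1 ≤ a x := (le_max_left _ _).trans hx
    have h2 : 2 * (a W.b₄ + a (2 * W.b₆) + a W.b₈) ≤ a x := (le_max_right _ _).trans hx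
    have h3 : a (W.b₄ * x ^ 2 + 2 * W.b₆ * x + W.b₈) ≤
        a W.b₄ * a x ^ 2 + a (2 * W.b₆) * a x + a W.b₈ := by
      refine (a.add_le _ _).trans (add_le_add ?_ le_rfl)
      refine (a.add_le _ _).trans ?_
      rw [a.map_mul, a.map_pow, a.map_mul (2 * W.b₆) x]
    have h4 : a x ≤ a x ^ 2 := le_self_pow₀ h1 (by norm_num)
    have h5 : 1 ≤ a x ^ 2 := one_le_pow₀ h1
    have e2 := mul_le_mul_of_nonneg_left h4 (hn (2 * W.b₆))
    have e3 := mul_le_mul_of_nonneg_left h5 (hn W.b₈)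
    have h6 : a (W.b₄ * x ^ 2 + 2 * W.b₆ * x + W.b₈) ≤
        (a W.b₄ + a (2 * W.b₆) + a W.b₈) * a x ^ 2 := by nlinarith
    have h7 : (a W.b₄ + a (2 * W.b₆) + a W.b₈) * a x ^ 2 ≤ a x ^ 2 / 2 * a x ^ 2 := by
      refine mul_le_mul_of_nonneg_right ?_ (by positivity)
      linarith
    have h8 : a (x ^ 4) ≤ a (phi W x) + a (W.b₄ * x ^ 2 + 2 * W.b₆ * x + W.b₈) := by
      have e : x ^ 4 = phi W x + (W.b₄ * x ^ 2 + 2 * W.b₆ * x + W.b₈) := by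
        unfold phi
        ring
      calc a (x ^ 4) = a (phi W x + (W.b₄ * x ^ 2 + 2 * W.b₆ * x + W.b₈)) := by rw [← e]
        _ ≤ _ := a.add_le _ _
    rw [a.map_pow] at h8
    nlinarith
end

/-- PACKET BND -/
theorem bnd : BND.{u} := fun _ _ a W _ => ⟨fun R => part1 a W R, part2 a W⟩

end Pool.Agent.Helper13.EL
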